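import Pool.Agent.H3.LU.BStmts

/-!
Project LU, part B1, module CN1: one step of the contraction of the space `E`: the union of the
chambers of length at most `k + 1` retracts to the union of the chambers of length at most `k`.
-/

set_option autoImplicit false
set_option linter.unusedVariables false

open scoped BigOperators Topology

noncomputable section

namespace Pool.LU

/-- the local homotopies -/
theorem cn1_loc (hRET : RETStmt) {n : ℕ} {V : Type} [Fintype V] [DecidableEq V] {P : SPoly n V}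
    {W : Type} [Group W] (R : RA V P.adj W) (hP : P.Good) (k : ℕ) (w : W) :
    ∃ h : ℝ → (Fin n → ℝ) → (Fin n → ℝ),
    ContinuousOn (fun p : ℝ × (Fin n → ℝ) => h p.1 p.2) (Set.Icc 0 1 ×ˢ P.cham) ∧
    (∀ s ∈ Set.Icc (0 : ℝ) 1, ∀ x ∈ P.cham, h s x ∈ P.cham) ∧
    (∀ x ∈ P.cham, h 0 x = x) ∧
    (R.len w = k + 1 → ∀ x ∈ P.cham, ∃ v, R.len (w * R.s v) < R.len w ∧ P.l v (h 1 x) = 0) ∧
    (R.len w ≤ k → ∀ s ∈ Set.Icc (0 : ℝ) 1, ∀ x ∈ P.cham, h s x = x) ∧
    ∀ s ∈ Set.Icc (0 : ℝ) 1, ∀ x ∈ P.cham,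
      (∃ v, R.len (w * R.s v) < R.len w ∧ P.l v x = 0) → h s x = x := by
  by_cases hw : R.len w = k + 1
  · have hne : w ≠ 1 := by
      intro h
      rw [(R.len_one w).2 h] at hw
      omega
    have hface : P.Face {v | R.len (w * R.s v) < R.len w} :=
      hP.flag _ (fun u hu v hv huv => R.desc w u v hu hv huv)
    obtain ⟨v0, hv0⟩ := R.ne w hne
    obtain ⟨h, h1, h2, h3, h4, h5⟩ := hRET n V P hP _ hface ⟨v0, hv0⟩
    refine ⟨h, h1, h2, h3, fun _ x hx => ?_, fun h' => by omega, fun s hs x hx hv => ?_⟩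
    · obtain ⟨v, hv, hv2⟩ := h4 x hx
      exact ⟨v, hv, hv2⟩
    · obtain ⟨v, hv, hv2⟩ := hv
      exact h5 s hs x hx ⟨v, hv, hv2⟩
  · refine ⟨fun _ x => x, continuousOn_snd, fun s _ x hx => hx, fun x _ => rfl,
      fun h => absurd h hw, fun _ s _ x _ => rfl, fun s _ x _ _ => rfl⟩

/-- the local homotopy as a map of the chamber -/
def cn1H {n : ℕ} {V : Type} {P : SPoly n V} (h : ℝ → (Fin n → ℝ) → (Fin n → ℝ)) (s : ℝ)
    (x : Pt P) : Pt P :=
  open Classical in if hs : h s x.1 ∈ P.cham then ⟨h s x.1, hs⟩ else x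

theorem cn1H_val {n : ℕ} {V : Type} {P : SPoly n V} (h : ℝ → (Fin n → ℝ) → (Fin n → ℝ)) (s : ℝ)
    (x : Pt P) (hs : h s x.1 ∈ P.cham) : (cn1H h s x).1 = h s x.1 := by
  unfold cn1H
  rw [dif_pos hs]

/-- CN1 -/
theorem cn1 (hRET : RETStmt) (hRAF : RAFStmt) (hTOP : TOPStmt) (hCLE : CLEStmt)
    (hPOL : POLStmt) : CN1Stmt := by
  intro n V _ _ P W _ R hP k
  have hR := hRAF V P.adj W R
  have hT := hTOP n V P W R hP
  have hPf := hPOL n V P hP
  obtain ⟨hcl, hlf⟩ := hCLE n V P W R hP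
  choose h hc hm h0 h1 hk hf using cn1_loc hRET R hP k
  have hval : ∀ w, ∀ s ∈ Set.Icc (0 : ℝ) 1, ∀ x : Pt P, (cn1H (h w) s x).1 = h w s x.1 :=
    fun w s hs x => cn1H_val _ s x (hm w s hs x.1 x.2)
  -- if `[w, x] = [w', x]` and `w ≠ w'` then the homotopies do not move `x`
  have hfix : ∀ w w' (x : Pt P), R.len w ≤ k + 1 → R.len w' ≤ k + 1 → w ≠ w' →
      w⁻¹ * w' ∈ stab R x.1 → ∀ s ∈ Set.Icc (0 : ℝ) 1, cn1H (h w) s x = x := by
    intro w w' x hw hw' hne hst s hs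
    apply Subtype.ext
    rw [hval w s hs x]
    rcases Nat.lt_or_ge k (R.len w) with hlt | hle
    · have hwk : R.len w = k + 1 := by omega
      apply hf w s hs x.1 x.2
      by_contra hno
      push Not at hno
      have hlen := hR.len (P.sig x.1) (hPf.clique x.1 x.2) w (fun v hv => by
        rcases R.len_s w v with h' | h'
        · omega
        · exact absurd hv (hno v (by omega))) (w⁻¹ * w') hst
      rw [mul_inv_cancel_left] at hlen
      have := hlen.2 (by omega)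
      rw [inv_mul_eq_one] at this
      exact hne this
    · exact hk w hle s hs x.1 x.2
  have hcompat : ∀ w w' (x x' : Pt P), R.len w ≤ k + 1 → R.len w' ≤ k + 1 →
      mk R w x = mk R w' x' → ∀ s ∈ Set.Icc (0 : ℝ) 1,
      mk R w (cn1H (h w) s x) = mk R w' (cn1H (h w') s x') := by
    intro w w' x x' hw hw' heq s hs
    obtain ⟨rfl, hst⟩ := (hT.eq w w' x x').1 heq
    by_cases hne : w = w'
    · subst hne
      rfl
    · rw [hfix w w' x hw hw' hne hst s hs, hfix w' w x hw' hw (Ne.symm hne) (by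
        have := inv_mem hst
        rwa [mul_inv_rev, inv_inv] at this) s hs]
      exact heq
  -- the homotopy
  have hex : ∃ H : ℝ → ESp R → ESp R, ∀ w x, R.len w ≤ k + 1 → ∀ s ∈ Set.Icc (0 : ℝ) 1,
      H s (mk R w x) = mk R w (cn1H (h w) s x) := by
    classical
    refine ⟨fun s p => if hp : ∃ q : W × Pt P, R.len q.1 ≤ k + 1 ∧ p = mk R q.1 q.2 then
      mk R hp.choose.1 (cn1H (h hp.choose.1) s hp.choose.2) else p, ?_⟩
    intro w x hw s hs
    have hp : ∃ q : W × Pt P, R.len q.1 ≤ k + 1 ∧ mk R w x = mk R q.1 q.2 := ⟨(w, x), hw, rfl⟩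
    show (if hp : ∃ q : W × Pt P, R.len q.1 ≤ k + 1 ∧ mk R w x = mk R q.1 q.2 then
      mk R hp.choose.1 (cn1H (h hp.choose.1) s hp.choose.2) else mk R w x) = _
    rw [dif_pos hp]
    exact hcompat _ _ _ _ hp.choose_spec.1 hw hp.choose_spec.2.symm s hs
  obtain ⟨H, hH⟩ := hex
  refine ⟨H, ?_, ?_, ?_, ?_, ?_⟩
  · -- continuity
    have hcov : (Set.Icc (0 : ℝ) 1 ×ˢ Bl R (k + 1)) ⊆
        ⋃ w : {w : W // R.len w ≤ k + 1}, Set.Icc (0 : ℝ) 1 ×ˢ Set.range (mk R w.1) := by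
      rintro ⟨s, p⟩ ⟨hs, w, x, hw, rfl⟩
      exact Set.mem_iUnion.2 ⟨⟨w, hw⟩, hs, x, rfl⟩
    refine ContinuousOn.mono ?_ hcov
    have hlf2 : LocallyFinite (fun w : {w : W // R.len w ≤ k + 1} => Set.range (mk R w.1)) :=
      hlf.comp_injective Subtype.val_injective
    apply (hlf2.prod_left (fun _ => Set.Icc (0 : ℝ) 1)).continuousOn_iUnion
    · intro w
      exact isClosed_Icc.prod (hcl w.1).isClosed_range
    · rintro ⟨w, hw⟩
      have himg : Set.Icc (0 : ℝ) 1 ×ˢ Set.range (mk R w) =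
          Prod.map id (mk R w) '' (Set.Icc (0 : ℝ) 1 ×ˢ Set.univ) := by
        rw [Set.prodMap_image_prod, Set.image_id, Set.image_univ]
      rw [himg, (Topology.IsInducing.id.prodMap (hcl w).isInducing).continuousOn_image_iff]
      have hcomp : ContinuousOn (fun q : ℝ × Pt P => cn1H (h w) q.1 q.2)
          (Set.Icc (0 : ℝ) 1 ×ˢ Set.univ) := by
        rw [Topology.IsInducing.subtypeVal.continuousOn_iff]
        have h2 : ContinuousOn (fun q : ℝ × Pt P => h w q.1 q.2.1)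
            (Set.Icc (0 : ℝ) 1 ×ˢ Set.univ) := by
          refine (hc w).comp (f := fun q : ℝ × Pt P => ((q.1, q.2.1) : ℝ × (Fin n → ℝ))) ?_ ?_
          · apply Continuous.continuousOn
            fun_prop
          · rintro ⟨s, x⟩ ⟨hs, _⟩
            exact ⟨hs, x.2⟩
        refine h2.congr ?_
        rintro ⟨s, x⟩ ⟨hs, _⟩
        exact hval w s hs x
      refine ((hT.cont w).comp_continuousOn hcomp).congr ?_
      rintro ⟨s, x⟩ ⟨hs, _⟩
      exact hH w x hw s hs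
  · rintro s hs p ⟨w, x, hw, rfl⟩
    rw [hH w x hw s hs]
    exact ⟨w, _, hw, rfl⟩
  · rintro p ⟨w, x, hw, rfl⟩
    rw [hH w x hw 0 ⟨le_rfl, zero_le_one⟩]
    congr 1
    apply Subtype.ext
    rw [hval w 0 ⟨le_rfl, zero_le_one⟩ x]
    exact h0 w x.1 x.2
  · rintro p ⟨w, x, hw, rfl⟩
    rw [hH w x hw 1 ⟨zero_le_one, le_rfl⟩]
    rcases Nat.lt_or_ge k (R.len w) with hlt | hle
    · have hwk : R.len w = k + 1 := by omega
      obtain ⟨v, hv, hv0⟩ := h1 w hwk x.1 x.2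
      refine ⟨w * R.s v, cn1H (h w) 1 x, by omega, ?_⟩
      rw [hT.eq]
      refine ⟨rfl, ?_⟩
      rw [inv_mul_cancel_left]
      apply Subgroup.subset_closure
      refine ⟨v, ?_, rfl⟩
      show P.l v (cn1H (h w) 1 x).1 = 0
      rw [hval w 1 ⟨zero_le_one, le_rfl⟩ x]
      exact hv0
    · exact ⟨w, _, hle, rfl⟩
  · rintro s hs p ⟨w, x, hw, rfl⟩
    rw [hH w x (by omega) s hs]
    congr 1
    apply Subtype.ext
    rw [hval w s hs x]
    exact hk w hw s hs x.1 x.2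

end Pool.LU
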