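import Pool.Agent.H3.LU.BStmts

/-!
Project LU, part B1, module CN2: a space with an exhaustion by subspaces which retract to each
other and such that the first one is contractible is contractible.
-/

set_option autoImplicit false
set_option linter.unusedVariables false

open scoped BigOperators Topology unitInterval

noncomputable section

namespace Pool.LU

/-- the time scale `1/(k+2)` -/
def cn2T (k : ℕ) : ℝ := 1 / ((k : ℝ) + 2)

/-- the time in the step number `k` -/
def cn2S (k : ℕ) (t : ℝ) : ℝ :=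
  min 1 (max 0 ((t - cn2T (k + 1)) / (cn2T k - cn2T (k + 1))))

/-- the contractions -/
def cn2C {E : Type} (H : ℕ → ℝ → E → E) (H0 : ℝ → E → E) : ℕ → ℝ → E → E
  | 0, t, p => H0 (max 0 (2 * t - 1)) p
  | (k + 1), t, p => if t ≤ cn2T k then H k (cn2S k t) p else cn2C H H0 k t (H k 1 p)

theorem cn2T_pos (k : ℕ) : 0 < cn2T k := by unfold cn2T; positivity

theorem cn2T_lt (k : ℕ) : cn2T (k + 1) < cn2T k := by
  unfold cn2T
  apply one_div_lt_one_div_of_lt (by positivity)
  push_cast
  linarith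

theorem cn2T_lt_one (k : ℕ) : cn2T k < 1 := by
  unfold cn2T
  rw [div_lt_one (by positivity)]
  have : (0 : ℝ) ≤ k := Nat.cast_nonneg k
  linarith

theorem cn2S_mem (k : ℕ) (t : ℝ) : cn2S k t ∈ Set.Icc (0 : ℝ) 1 :=
  ⟨le_min zero_le_one (le_max_left _ _), min_le_left _ _⟩

theorem cn2S_cont (k : ℕ) : Continuous (cn2S k) := by
  unfold cn2S
  fun_prop

theorem cn2S_zero (k : ℕ) (t : ℝ) (h : t ≤ cn2T (k + 1)) : cn2S k t = 0 := by
  unfold cn2S
  have h1 : (t - cn2T (k + 1)) / (cn2T k - cn2T (k + 1)) ≤ 0 :=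
    div_nonpos_of_nonpos_of_nonneg (by linarith) (by linarith [cn2T_lt k])
  rw [max_eq_left h1]
  exact min_eq_right zero_le_one

theorem cn2S_one (k : ℕ) : cn2S k (cn2T k) = 1 := by
  unfold cn2S
  rw [div_self (by linarith [cn2T_lt k]), max_eq_right zero_le_one, min_self]

/-- CN2 -/
theorem cn2 : CN2Stmt := by
  intro E _ B hB hcov H hHc hHm hH0 hH1 hHf H0 o hc0 h00 h01
  -- the invariants
  have inv : ∀ k, ContinuousOn (fun p : ℝ × E => cn2C H H0 k p.1 p.2) (Set.Icc 0 1 ×ˢ B k) ∧
      (∀ t ∈ Set.Icc (0 : ℝ) 1, t ≤ cn2T k → ∀ p ∈ B k, cn2C H H0 k t p = p) ∧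
      (∀ p ∈ B k, cn2C H H0 k 1 p = o) := by
    intro k
    induction k with
    | zero =>
      refine ⟨?_, ?_, ?_⟩
      · show ContinuousOn (fun p : ℝ × E => H0 (max 0 (2 * p.1 - 1)) p.2) (Set.Icc 0 1 ×ˢ B 0)
        have h1 : ContinuousOn (fun p : ℝ × E => ((max 0 (2 * p.1 - 1), p.2) : ℝ × E))
            (Set.Icc 0 1 ×ˢ B 0) := by
          apply Continuous.continuousOn
          fun_prop
        refine hc0.comp h1 ?_
        rintro ⟨t, p⟩ ⟨⟨ht0, ht1⟩, hp⟩
        exact ⟨⟨le_max_left _ _, max_le zero_le_one (by simp only at ht1; linarith)⟩, hp⟩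
      · intro t ht ht2 p hp
        show H0 (max 0 (2 * t - 1)) p = p
        have : cn2T 0 = 1 / 2 := by unfold cn2T; norm_num
        rw [this] at ht2
        rw [max_eq_left (by linarith)]
        exact h00 p hp
      · intro p hp
        show H0 (max 0 (2 * 1 - 1)) p = o
        rw [max_eq_right (by norm_num)]
        norm_num
        exact h01 p hp
    | succ k ih =>
      obtain ⟨ih1, ih2, ih3⟩ := ih
      refine ⟨?_, ?_, ?_⟩
      · rw [continuousOn_iff_continuous_domRestrict]
        have e : (Set.Icc (0 : ℝ) 1 ×ˢ B (k + 1)).domRestrict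
            (fun p : ℝ × E => cn2C H H0 (k + 1) p.1 p.2) =
            fun p => if p.1.1 ≤ cn2T k then H k (cn2S k p.1.1) p.1.2
              else cn2C H H0 k p.1.1 (H k 1 p.1.2) := by
          funext p
          rfl
        rw [e]
        refine Continuous.if_le ?_ ?_ (by fun_prop) continuous_const ?_
        · have h1 := (hHc k).comp_continuous
            (f := fun p : ↥(Set.Icc (0 : ℝ) 1 ×ˢ B (k + 1)) => ((cn2S k p.1.1, p.1.2) : ℝ × E))
            (by have := cn2S_cont k; fun_prop)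
            (fun p => ⟨cn2S_mem k _, p.2.2⟩)
          exact h1
        · have h2 := (hHc k).comp_continuous
            (f := fun p : ↥(Set.Icc (0 : ℝ) 1 ×ˢ B (k + 1)) => ((1, p.1.2) : ℝ × E))
            (by fun_prop)
            (fun p => ⟨⟨zero_le_one, le_refl _⟩, p.2.2⟩)
          have h3 := ih1.comp_continuous
            (f := fun p : ↥(Set.Icc (0 : ℝ) 1 ×ˢ B (k + 1)) => ((p.1.1, H k 1 p.1.2) : ℝ × E))
            (by
              have h4 : Continuous (fun p : ↥(Set.Icc (0 : ℝ) 1 ×ˢ B (k + 1)) => H k 1 p.1.2) := h2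
              exact (continuous_fst.comp continuous_subtype_val).prodMk h4)
            (fun p => ⟨p.2.1, hH1 k _ p.2.2⟩)
          exact h3
        · intro p hp
          rw [hp, cn2S_one]
          have := ih2 (cn2T k) ⟨(cn2T_pos k).le, (cn2T_lt_one k).le⟩ le_rfl (H k 1 p.1.2)
            (hH1 k _ p.2.2)
          rw [this]
      · intro t ht ht2 p hp
        show (if t ≤ cn2T k then H k (cn2S k t) p else cn2C H H0 k t (H k 1 p)) = p
        rw [if_pos (ht2.trans (cn2T_lt k).le), cn2S_zero k t ht2]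
        exact hH0 k p hp
      · intro p hp
        show (if 1 ≤ cn2T k then H k (cn2S k 1) p else cn2C H H0 k 1 (H k 1 p)) = o
        rw [if_neg (not_le.mpr (cn2T_lt_one k))]
        exact ih3 _ (hH1 k p hp)
  have step : ∀ k, ∀ t ∈ Set.Icc (0 : ℝ) 1, ∀ p ∈ B k,
      cn2C H H0 (k + 1) t p = cn2C H H0 k t p := by
    intro k t ht p hp
    show (if t ≤ cn2T k then H k (cn2S k t) p else cn2C H H0 k t (H k 1 p)) = _
    split_ifs with h
    · rw [(inv k).2.1 t ht h p hp]
      exact hHf k _ (cn2S_mem k t) p hp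
    · rw [hHf k 1 ⟨zero_le_one, le_refl _⟩ p hp]
  have mono : ∀ j k, j ≤ k → B j ⊆ B k := by
    intro j k hjk
    exact monotone_nat_of_le_succ hB hjk
  have cons : ∀ j k, j ≤ k → ∀ t ∈ Set.Icc (0 : ℝ) 1, ∀ p ∈ B j,
      cn2C H H0 k t p = cn2C H H0 j t p := by
    intro j k hjk
    induction k, hjk using Nat.le_induction with
    | base => intro t ht p hp; rfl
    | succ k hjk ih =>
      intro t ht p hp
      rw [step k t ht p (mono j k hjk hp)]
      exact ih t ht p hp
  have hex : ∀ p, ∃ k, p ∈ B k := fun p => by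
    obtain ⟨k, hk⟩ := hcov p
    exact ⟨k, interior_subset hk⟩
  choose N hN using hex
  have hCk : ∀ k, ∀ t ∈ Set.Icc (0 : ℝ) 1, ∀ p ∈ B k,
      cn2C H H0 (N p) t p = cn2C H H0 k t p := by
    intro k t ht p hp
    rcases le_total (N p) k with h | h
    · exact (cons _ _ h t ht p (hN p)).symm
    · exact cons _ _ h t ht p hp
  have hcont : Continuous (fun q : I × E => cn2C H H0 (N q.2) (q.1 : ℝ) q.2) := by
    rw [continuous_iff_continuousAt]
    rintro ⟨t, p⟩
    obtain ⟨k, hk⟩ := hcov p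
    have hopen : IsOpen (Prod.snd ⁻¹' interior (B k) : Set (I × E)) :=
      isOpen_interior.preimage continuous_snd
    have hmem : (Prod.snd ⁻¹' interior (B k) : Set (I × E)) ∈ 𝓝 (t, p) := hopen.mem_nhds hk
    have hco : ContinuousOn (fun q : I × E => cn2C H H0 k (q.1 : ℝ) q.2)
        (Prod.snd ⁻¹' interior (B k)) := by
      refine (inv k).1.comp (f := fun q : I × E => (((q.1 : ℝ), q.2) : ℝ × E)) ?_ ?_
      · apply Continuous.continuousOn
        fun_prop
      · rintro ⟨s, q⟩ hq
        exact ⟨s.2, interior_subset hq⟩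
    refine (hco.continuousAt hmem).congr ?_
    filter_upwards [hmem] with q hq
    exact (hCk k _ q.1.2 _ (interior_subset hq)).symm
  rw [contractible_iff_id_nullhomotopic]
  refine ⟨o, ⟨⟨⟨fun q : I × E => cn2C H H0 (N q.2) (q.1 : ℝ) q.2, hcont⟩, ?_, ?_⟩⟩⟩
  · intro p
    exact (inv (N p)).2.1 0 ⟨le_rfl, zero_le_one⟩ (cn2T_pos _).le p (hN p)
  · intro p
    exact (inv (N p)).2.2 p (hN p)

end Pool.LU
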